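import Pool.Agent.KDS.StmtsA

set_option autoImplicit false

namespace Pool.Agent.KDS.H77

open Polynomial NumberField H58Q Pool.Agent.SZT Pool.Agent.KDT Pool.Agent.KDS

theorem sq_mi {K : Type} [Field K] {f A V E : K[X]} (hcop : IsCoprime A (2 * V))
    (hE : V ^ 2 - f = A ^ 2 * E) : MI f A V ^ 2 = MI f (A ^ 2) V := by
  obtain ⟨a, b, hab⟩ := hcop
  have e1 : (⟨A ^ 2, 0⟩ : Q K f) = ⟨A, 0⟩ * ⟨A, 0⟩ := by
    apply QuadraticAlgebra.ext
    · simp only [QuadraticAlgebra.re_mul]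
      ring
    · simp only [QuadraticAlgebra.im_mul]
      ring
  rw [pow_two]
  apply le_antisymm
  · unfold MI
    rw [Ideal.span_pair_mul_span_pair, Ideal.span_le, Set.insert_subset_iff,
      Set.insert_subset_iff, Set.insert_subset_iff, Set.singleton_subset_iff]
    refine ⟨?_, Ideal.mul_mem_left _ _ (Ideal.subset_span (by simp)),
      Ideal.mul_mem_right _ _ (Ideal.subset_span (by simp)),
      Ideal.mul_mem_left _ _ (Ideal.subset_span (by simp))⟩
    rw [← e1]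
    exact Ideal.subset_span (by simp)
  · have hAA : (⟨A, 0⟩ : Q K f) * ⟨A, 0⟩ ∈ MI f A V * MI f A V :=
      Ideal.mul_mem_mul (Ideal.subset_span (by simp)) (Ideal.subset_span (by simp))
    have hAy : (⟨A, 0⟩ : Q K f) * ⟨-V, 1⟩ ∈ MI f A V * MI f A V :=
      Ideal.mul_mem_mul (Ideal.subset_span (by simp)) (Ideal.subset_span (by simp))
    have hyy : (⟨-V, 1⟩ : Q K f) * ⟨-V, 1⟩ ∈ MI f A V * MI f A V :=
      Ideal.mul_mem_mul (Ideal.subset_span (by simp)) (Ideal.subset_span (by simp))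
    have e2 : (⟨-V, 1⟩ : Q K f) = ⟨a, 0⟩ * (⟨A, 0⟩ * ⟨-V, 1⟩) +
        (⟨-b, 0⟩ * (⟨-V, 1⟩ * ⟨-V, 1⟩) + ⟨-(b * E), 0⟩ * (⟨A, 0⟩ * ⟨A, 0⟩)) := by
      apply QuadraticAlgebra.ext
      · simp only [QuadraticAlgebra.re_mul, QuadraticAlgebra.im_mul, QuadraticAlgebra.re_add]
        linear_combination V * hab - b * hE
      · simp only [QuadraticAlgebra.re_mul, QuadraticAlgebra.im_mul, QuadraticAlgebra.im_add]
        linear_combination -hab
    rw [MI.eq_def f (A ^ 2) V, Ideal.span_le, Set.insert_subset_iff, Set.singleton_subset_iff]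
    refine ⟨?_, ?_⟩
    · rw [e1]
      exact hAA
    · rw [e2]
      exact Ideal.add_mem _ (Ideal.mul_mem_left _ _ hAy)
        (Ideal.add_mem _ (Ideal.mul_mem_left _ _ hyy) (Ideal.mul_mem_left _ _ hAA))

theorem cop_two {K : Type} [Field K] (h2 : (2 : K) ≠ 0) {f A V E : K[X]} (hcop : IsCoprime A f)
    (hE : V ^ 2 - f = A ^ 2 * E) : IsCoprime A (2 * V) := by
  have h1 : IsCoprime A (V ^ 2) := by
    have e : V ^ 2 = f + A * (A * E) := by linear_combination hE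
    rw [e]
    exact hcop.add_mul_left_right _
  have h3 : IsCoprime A V := (IsCoprime.pow_right_iff (by norm_num)).1 h1
  refine IsCoprime.mul_right ⟨0, C (2 : K)⁻¹, ?_⟩ h3
  have h4 : (2 : K[X]) = C (2 : K) := by rw [map_ofNat]
  rw [zero_mul, zero_add, h4, ← C_mul, inv_mul_cancel₀ h2, C_1]

theorem same_of {R : Type} [CommRing R] {I J I' : Ideal R} {a b : R} (ha : a ≠ 0) (hb : b ≠ 0)
    (h1 : J * I' = Ideal.span {a}) (h2 : I * I' = Ideal.span {b}) : SameCl I J := by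
  refine ⟨a, b, ha, hb, ?_⟩
  rw [← h1, ← h2]
  ring

theorem sc_symm {R : Type} [CommRing R] {I J : Ideal R} (h : SameCl I J) : SameCl J I := by
  obtain ⟨a, b, ha, hb, h⟩ := h
  exact ⟨b, a, hb, ha, h.symm⟩

theorem sc_trans {R : Type} [CommRing R] [IsDomain R] {I J L : Ideal R} (h1 : SameCl I J)
    (h2 : SameCl J L) : SameCl I L := by
  obtain ⟨a, b, ha, hb, h⟩ := h1
  obtain ⟨c, d, hc, hd, h'⟩ := h2
  refine ⟨c * a, b * d, mul_ne_zero hc ha, mul_ne_zero hb hd, ?_⟩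
  rw [← Ideal.span_singleton_mul_span_singleton, ← Ideal.span_singleton_mul_span_singleton,
    mul_assoc, h, mul_left_comm, h', mul_assoc]

theorem dpb (dpa : DpaStatement) (mii : MiiStatement) (unq : UnqStatement)
    (iml : KDT.Z.ImlStatement) : DpbStatement := by
  intro K _ f A B A' B' h2 hfm hf5 hsq hG hM' hA2 hS
  have hdom : IsDomain (Q K f) := isDomain (g := 2) (by rw [hf5])
  obtain ⟨i1, -, i3⟩ := iml
  have yne : ∀ V : K[X], (⟨-V, 1⟩ : Q K f) ≠ 0 := by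
    intro V h
    have := congrArg QuadraticAlgebra.im h
    simp at this
  have ane : ∀ P : K[X], P ≠ 0 → (⟨P, 0⟩ : Q K f) ≠ 0 := by
    intro P hP h
    apply hP
    have := congrArg QuadraticAlgebra.re h
    simpa using this
  have hmain : ∀ (V A₂ B₂ : K[X]) (c : K), c ≠ 0 → V ^ 2 - f = C c * (A ^ 2 * A₂) → A ∣ V - B →
      A₂ ∣ V + B₂ → Mum f A₂ B₂ → A₂.natDegree ≤ 2 →
      MI f A B ^ 2 * MI f A₂ (-B₂) = Ideal.span {(⟨-V, 1⟩ : Q K f)} ∧ A' = A₂ ∧ B' = B₂ := by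
    intro V A₂ B₂ c hc hV hVB hVB₂ hM₂ hd₂
    have hE : V ^ 2 - f = A ^ 2 * (C c * A₂) := by rw [hV]; ring
    have h3 : MI f A B ^ 2 = MI f (A ^ 2) V := by
      rw [← i3 K f A B V hVB]
      exact sq_mi (cop_two h2 hG.cop hE) hE
    have h4 : MI f A₂ V = MI f A₂ (-B₂) := by
      refine i3 K f A₂ (-B₂) V ?_
      rw [sub_neg_eq_add]
      exact hVB₂
    have h5 : MI f A B ^ 2 * MI f A₂ (-B₂) = Ideal.span {(⟨-V, 1⟩ : Q K f)} := by
      rw [h3, ← h4]
      exact i1 K f V (A ^ 2) A₂ c h2 hsq hc hV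
    have h6 := mii K f A₂ B₂ h2 hsq hM₂.dvd
    have h7 : SameCl (MI f A₂ B₂) (MI f A B ^ 2) :=
      same_of (yne V) (ane A₂ hM₂.monic.ne_zero) h5 h6
    have h8 : SameCl (MI f A' B') (MI f A₂ B₂) := sc_trans hS (sc_symm h7)
    exact ⟨h5, unq K f A' B' A₂ B₂ h2 hsq hf5 hM' hM₂ hA2.le hd₂ h8⟩
  rcases dpa K f A B h2 hfm hf5 hG with ⟨m, A₂, B₂, V, hD, d1, d2, d3⟩ | ⟨a, V, -, hV, hVB⟩
  · obtain ⟨h5, rfl, rfl⟩ := hmain V A₂ B₂ (m ^ 2) (pow_ne_zero 2 hD.mne) hD.eq hD.dvd hD.dvd'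
      hD.mum hD.two.le
    exact ⟨m, V, hD, h5, d1, d2, d3⟩
  · exfalso
    have hXV : (X - C a) ∣ V - C (V.eval a) := by
      rw [dvd_iff_isRoot, IsRoot, eval_sub, eval_C, sub_self]
    have hM₂ : Mum f (X - C a) (-C (V.eval a)) := by
      refine ⟨monic_X_sub_C a, ?_, ?_⟩
      · rw [degree_neg, degree_X_sub_C]
        exact lt_of_le_of_lt degree_C_le (by norm_num)
      · have e : (-C (V.eval a)) ^ 2 - f = -(A ^ 2 * (X - C a)) -
            (V + C (V.eval a)) * (V - C (V.eval a)) := by linear_combination (-1 : K[X]) * hV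
        rw [e]
        exact dvd_sub (dvd_neg.2 (dvd_mul_left _ _)) (hXV.mul_left _)
    have h9 := hmain V (X - C a) (-C (V.eval a)) (-1) (by norm_num) (by
      rw [map_neg, C_1]
      linear_combination (-1 : K[X]) * hV) hVB (by
      rw [← sub_eq_add_neg]
      exact hXV) hM₂ (by rw [natDegree_X_sub_C]; norm_num)
    rw [h9.2.1, natDegree_X_sub_C] at hA2
    exact absurd hA2 (by norm_num)

end Pool.Agent.KDS.H77
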